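import Pool.Agent.H96.SQ.Fin

/-!
# Growth of sumsets of squares of `𝔽_p[x]`: the dependence on `p`, and a sharp inequality for two sets

For an odd prime `p` let `ε_p` be the largest exponent for which all finite sets `A` of squares of `𝔽_p[x]` satisfy
`|A + A| ≥ |A| ^ (1 + ε_p)` (for `p = 3`: all sets with `|A| ≠ 3`). It is known from the library that `ε_p > 0`, and that
`ε_p` tends to zero along a subsequence of the primes. Here:

* `10⁻²⁴ / (log p) ^ 12 ≤ ε_p ≤ 2 / log p` for all `p ≥ 5`. The lower bound holds for squares of rational functions in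
  any number of variables, and with the same exponent `|A + B| ^ 2 ≥ |A| ^ (1 + ε) |B|` for every finite set `B`;
* for `p ≥ 5` nonempty finite sets `A`, `B` of squares satisfy the inequality `|A + B| ≥ |A| + |B| - 1` of torsion-free
  groups; there is equality for the set `A = B` of the squares of `𝔽_p`.

Method. (a) An elementary descent shows that a line `{f + t w : t ∈ 𝔽_p}` which does not contain `0` contains at most
three squares, and a line through `0` contains at most `(p + 1) / 2`. So a coset of a finite subgroup `H ≠ 0` contains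
at most `(|H| + 1) / 2` squares, and Kneser's theorem (library) gives the second statement. (b) For large sets the
argument of the library is made quantitative: the cap set bound `|S| ≤ 3 (0.97 p) ^ n`, uniformly in `p`, gives that
every subset of `𝔽_p ^ n` of density at least `p ^ (- a)` contains a grid of dimension `11` as soon as
`n > (107 log p) ^ 11 (a + 1)`, and grids of squares of this dimension do not exist (library). For sets with at most
`p ^ (6 (107 log p) ^ 11)` elements the second statement is used.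
-/

set_option autoImplicit false

open Polynomial Pointwise

namespace Pool.Agent.Results.MP_9d026e_co.DependenceOnThePrime

/-- The exponent `10⁻²⁴ / (log p) ^ 12`. -/
noncomputable def expo (p : ℕ) : ℝ := 1 / (10 ^ 24 * Real.log p ^ 12)

/-- (1) The answer to the question: for every odd prime `p` there is `ε > 0` such that all finite sets `A` of squares of
`𝔽_p[x]` satisfy `|A + A| ≥ |A| ^ (1 + ε)`, where `|A| ≠ 3` if `p = 3`; for `p = 3` there is a set of three squares with
`|A + A| = 3`.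

(2) If `p ≥ 5`, one can take `ε = 10⁻²⁴ / (log p) ^ 12`; moreover `|A + B| ^ 2 ≥ |A| ^ (1 + ε) |B|` for every finite
set `B` of polynomials.

(3) If `p ≥ 5`, then `|A + B| ≥ |A| + |B| - 1` for all nonempty finite sets `A`, `B` of squares.

(4) If `p ≥ 5`, there is a set `A` of `(p + 1) / 2` squares with `|A + A| = 2 |A| - 1 < |A| ^ (1 + 2 / log p)`. So `ε`
cannot be larger than `2 / log p`, and (3) is sharp.

(5) The statements (2) and (3) hold for squares of rational functions over `𝔽_p` in any number of variables. -/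
theorem result :
    (∀ (p : ℕ) [Fact p.Prime], p ≠ 2 →
      (∃ ε : ℝ, 0 < ε ∧ ∀ A : Finset (ZMod p)[X], (∀ f ∈ A, IsSquare f) → (p = 3 → A.card ≠ 3) →
        (A.card : ℝ) ^ (1 + ε) ≤ ((A + A).card : ℝ)) ∧
      (p = 3 → ∃ A : Finset (ZMod p)[X], (∀ f ∈ A, IsSquare f) ∧ A.card = 3 ∧ (A + A).card = 3)) ∧
    (∀ (p : ℕ) [Fact p.Prime], 5 ≤ p → 0 < expo p ∧ ∀ A : Finset (ZMod p)[X], (∀ f ∈ A, IsSquare f) →
      (A.card : ℝ) ^ (1 + expo p) ≤ ((A + A).card : ℝ) ∧
      ∀ B : Finset (ZMod p)[X], (A.card : ℝ) ^ (1 + expo p) * B.card ≤ ((A + B).card : ℝ) ^ 2) ∧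
    (∀ (p : ℕ) [Fact p.Prime], 5 ≤ p → ∀ A B : Finset (ZMod p)[X], (∀ f ∈ A, IsSquare f) → (∀ f ∈ B, IsSquare f) →
      A.Nonempty → B.Nonempty → A.card + B.card ≤ (A + B).card + 1) ∧
    (∀ (p : ℕ) [Fact p.Prime], 5 ≤ p → ∃ A : Finset (ZMod p)[X], (∀ f ∈ A, IsSquare f) ∧ 2 * A.card = p + 1 ∧
      (A + A).card + 1 = 2 * A.card ∧ ((A + A).card : ℝ) < (A.card : ℝ) ^ (1 + 2 / Real.log p)) ∧
    (∀ (p : ℕ) [Fact p.Prime], 5 ≤ p → ∀ (σ : Type) [DecidableEq (FractionRing (MvPolynomial σ (ZMod p)))]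
      (A B : Finset (FractionRing (MvPolynomial σ (ZMod p)))), (∀ f ∈ A, IsSquare f) →
      (A.card : ℝ) ^ (1 + expo p) ≤ ((A + A).card : ℝ) ∧
      (A.card : ℝ) ^ (1 + expo p) * B.card ≤ ((A + B).card : ℝ) ^ 2 ∧
      ((∀ f ∈ B, IsSquare f) → A.Nonempty → B.Nonempty → A.card + B.card ≤ (A + B).card + 1)) := by
  have hexpo : ∀ p : ℕ, expo p = Pool.Agent.H96.SQ.eps p := fun p => (Pool.Agent.H96.SQ.eps_eq p).symm
  have hpos : ∀ p : ℕ, 5 ≤ p → 0 < expo p := by
    intro p hp
    have hp' : (1 : ℝ) < p := by exact_mod_cast (by omega : 1 < p)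
    have := Real.log_pos hp'
    unfold expo
    positivity
  have h2 : ∀ (p : ℕ) [Fact p.Prime], 5 ≤ p → 0 < expo p ∧ ∀ A : Finset (ZMod p)[X], (∀ f ∈ A, IsSquare f) →
      (A.card : ℝ) ^ (1 + expo p) ≤ ((A + A).card : ℝ) ∧
      ∀ B : Finset (ZMod p)[X], (A.card : ℝ) ^ (1 + expo p) * B.card ≤ ((A + B).card : ℝ) ^ 2 := by
    intro p _ hp
    refine ⟨hpos p hp, fun A hA => ?_⟩
    have h := Pool.Agent.H96.SQ.growth_poly p hp A hA
    rw [hexpo]
    exact ⟨h, fun B => Pool.Agent.H96.SQ.asym_real A B h⟩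
  refine ⟨?_, h2, ?_, ?_, ?_⟩
  · intro p hpr hp2
    rcases Nat.lt_or_ge p 5 with h5 | h5
    · have h3 : p = 3 := by
        have h2 := hpr.out.two_le
        have h4 : p ≠ 4 := by
          rintro rfl
          exact absurd hpr.out (by norm_num)
        omega
      subst h3
      obtain ⟨ε, hε, h⟩ := Pool.Agent.Helper999.Sq3.growth3
      refine ⟨⟨ε, hε, fun A hA h3 => h A hA (h3 rfl)⟩, fun _ => ?_⟩
      exact Pool.Agent.Helper999.Sq3.coset3
    · obtain ⟨h6, h7⟩ := h2 p h5
      exact ⟨⟨expo p, h6, fun A hA _ => (h7 A hA).1⟩, fun h => absurd h (by omega)⟩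
  · intro p _ hp A B hA hB nA nB
    exact Pool.Agent.H96.SQ.sum_squares hp A B hA hB nA nB
  · intro p _ hp
    exact Pool.Agent.H96.SQ.upper p hp
  · intro p _ hp σ _ A B hA
    have h := Pool.Agent.H96.SQ.transfer p hp σ A hA
    rw [hexpo]
    exact ⟨h, Pool.Agent.H96.SQ.asym_real A B h, fun hB nA nB =>
      Pool.Agent.H96.SQ.transfer_sum p hp σ A B hA hB nA nB⟩

end Pool.Agent.Results.MP_9d026e_co.DependenceOnThePrime
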